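import Mathlib

/-!
# The rainbow-free restriction changes the weak rainbow saturation number

For every `n ≥ 3` and `H = K_n` minus an edge, `rwsat(n,H) = C(n,2) - 1` but `rwsat*(n,H) = C(n,2)`.
-/

set_option autoImplicit false

namespace Pool.Agent.Results.MP_e47ea7_co.CliqueMinusEdge

open SimpleGraph

/-- the map `f` embeds `H` into the graph with edge set `E` so that the edges of the copy have
pairwise different colours under `κ` -/
def IsRainbowCopy {W : Type} {n : ℕ} (H : SimpleGraph W) (E : Set (Sym2 (Fin n)))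
    (κ : Sym2 (Fin n) → ℕ) (f : W → Fin n) : Prop :=
  Function.Injective f ∧ (∀ x ∈ H.edgeSet, x.map f ∈ E) ∧
    ∀ x ∈ H.edgeSet, ∀ y ∈ H.edgeSet, κ (x.map f) = κ (y.map f) → x = y

/-- `(G,χ)` is weakly `H`-rainbow saturated in `K_n` -/
def WeaklySaturated {W : Type} {n : ℕ} (H : SimpleGraph W) (G : SimpleGraph (Fin n))
    (χ : Sym2 (Fin n) → ℕ) : Prop :=
  ∃ (m : ℕ) (e : Fin m → Sym2 (Fin n)), Function.Injective e ∧ Set.range e = Gᶜ.edgeSet ∧
    ∀ c : Fin m → ℕ, Function.Injective c →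
      ∀ κ : Sym2 (Fin n) → ℕ, (∀ x ∈ G.edgeSet, κ x = χ x) → (∀ j, κ (e j) = c j) →
        ∀ i : Fin m, ∃ f : W → Fin n,
          IsRainbowCopy H (G.edgeSet ∪ {x | ∃ j ≤ i, x = e j}) κ f ∧
            ∃ x ∈ H.edgeSet, x.map f = e i

/-- `(G,χ)` contains no rainbow copy of `H` -/
def RainbowFree {W : Type} {n : ℕ} (H : SimpleGraph W) (G : SimpleGraph (Fin n))
    (χ : Sym2 (Fin n) → ℕ) : Prop :=
  ∀ f : W → Fin n, ¬ IsRainbowCopy H G.edgeSet χ f

/-- the weak rainbow saturation number -/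
noncomputable def rwsat {W : Type} (n : ℕ) (H : SimpleGraph W) : ℕ∞ :=
  sInf {k | ∃ (G : SimpleGraph (Fin n)) (χ : Sym2 (Fin n) → ℕ),
    WeaklySaturated H G χ ∧ G.edgeSet.encard = k}

/-- the same minimum over rainbow `H`-free start graphs only (`⊤` if there are none) -/
noncomputable def rwsatStar {W : Type} (n : ℕ) (H : SimpleGraph W) : ℕ∞ :=
  sInf {k | ∃ (G : SimpleGraph (Fin n)) (χ : Sym2 (Fin n) → ℕ),
    WeaklySaturated H G χ ∧ RainbowFree H G χ ∧ G.edgeSet.encard = k}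

/-- the complete graph on `n + 3` vertices minus the edge `01` -/
def Km (n : ℕ) : SimpleGraph (Fin (n + 3)) := (⊤ : SimpleGraph (Fin (n + 3))).deleteEdges {s(0, 1)}

theorem mem_Km {n : ℕ} {x : Sym2 (Fin (n + 3))} :
    x ∈ (Km n).edgeSet ↔ ¬ x.IsDiag ∧ x ≠ s(0, 1) := by
  unfold Km
  rw [edgeSet_deleteEdges, edgeSet_top]
  rfl

variable {n : ℕ}

theorem map_surj {f : Fin (n + 3) → Fin (n + 3)} (hf : Function.Injective f)
    (y : Sym2 (Fin (n + 3))) : ∃ x : Sym2 (Fin (n + 3)), x.map f = y := by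
  have hs : Function.Surjective f := Finite.surjective_of_injective hf
  revert y
  refine Sym2.ind (fun a b => ?_)
  obtain ⟨a', rfl⟩ := hs a
  obtain ⟨b', rfl⟩ := hs b
  exact ⟨s(a', b'), rfl⟩

theorem isDiag_map {f : Fin (n + 3) → Fin (n + 3)} (hf : Function.Injective f)
    (x : Sym2 (Fin (n + 3))) : (x.map f).IsDiag ↔ x.IsDiag := by
  refine Sym2.ind (fun a b => ?_) x
  simp only [Sym2.map_mk, Sym2.mk_isDiag_iff]
  exact hf.eq_iff

/-- the edges of a copy of `Km n` are all edges but the image of `01` -/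
theorem copy_edges {f : Fin (n + 3) → Fin (n + 3)} (hf : Function.Injective f)
    {y : Sym2 (Fin (n + 3))} (hy : ¬ y.IsDiag) (hy2 : y ≠ s(f 0, f 1)) :
    ∃ x ∈ (Km n).edgeSet, x.map f = y := by
  obtain ⟨x, rfl⟩ := map_surj hf y
  refine ⟨x, mem_Km.mpr ⟨fun h => hy ((isDiag_map hf x).mpr h), ?_⟩, rfl⟩
  rintro rfl
  exact hy2 rfl

/-- two edges of the same colour in a rainbow copy of `Km n` coincide -/
theorem copy_rainbow {f : Fin (n + 3) → Fin (n + 3)} {E : Set (Sym2 (Fin (n + 3)))}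
    {κ : Sym2 (Fin (n + 3)) → ℕ} (h : IsRainbowCopy (Km n) E κ f) {y z : Sym2 (Fin (n + 3))}
    (hy : ¬ y.IsDiag) (hy2 : y ≠ s(f 0, f 1)) (hz : ¬ z.IsDiag) (hz2 : z ≠ s(f 0, f 1))
    (hyz : κ y = κ z) : y = z := by
  obtain ⟨x, hx, rfl⟩ := copy_edges h.1 hy hy2
  obtain ⟨x', hx', rfl⟩ := copy_edges h.1 hz hz2
  rw [h.2.2 x hx x' hx' hyz]

/-- there is an edge different from two given ones -/
theorem exists_third (x y : Sym2 (Fin (n + 3))) : ∃ g : Sym2 (Fin (n + 3)), ¬ g.IsDiag ∧ g ≠ x ∧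
    g ≠ y := by
  let v0 : Fin (n + 3) := ⟨0, by omega⟩
  let v1 : Fin (n + 3) := ⟨1, by omega⟩
  let v2 : Fin (n + 3) := ⟨2, by omega⟩
  have h01 : v0 ≠ v1 := by simp [v0, v1]
  have h02 : v0 ≠ v2 := by simp [v0, v2]
  have h12 : v1 ≠ v2 := by simp [v1, v2]
  by_contra hcon
  push Not at hcon
  have e1 := hcon s(v0, v1) (by rw [Sym2.mk_isDiag_iff]; exact h01)
  have e2 := hcon s(v0, v2) (by rw [Sym2.mk_isDiag_iff]; exact h02)
  have e3 := hcon s(v1, v2) (by rw [Sym2.mk_isDiag_iff]; exact h12)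
  have n12 : s(v0, v1) ≠ s(v0, v2) := by simp [h02, h12]
  have n13 : s(v0, v1) ≠ s(v1, v2) := by simp [h01, h02]
  have n23 : s(v0, v2) ≠ s(v1, v2) := by simp [h01, h02]
  by_cases c1 : s(v0, v1) = x
  · by_cases c2 : s(v0, v2) = x
    · exact n12 (c1.trans c2.symm)
    · by_cases c3 : s(v1, v2) = x
      · exact n13 (c1.trans c3.symm)
      · exact n23 ((e2 c2).trans (e3 c3).symm)
  · by_cases c2 : s(v0, v2) = x
    · by_cases c3 : s(v1, v2) = x
      · exact n23 (c2.trans c3.symm)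
      · exact n13 ((e1 c1).trans (e3 c3).symm)
    · exact n12 ((e1 c1).trans (e2 c2).symm)

theorem exists_perm {a b : Fin (n + 3)} (hab : a ≠ b) :
    ∃ f : Fin (n + 3) → Fin (n + 3), Function.Injective f ∧ f 0 = a ∧ f 1 = b := by
  have h01 : (0 : Fin (n + 3)) ≠ 1 := by
    intro h
    have := congrArg Fin.val h
    simp at this
  refine ⟨(Equiv.swap 0 a) ∘ (Equiv.swap 1 (Equiv.swap 0 a b)),
    (Equiv.injective _).comp (Equiv.injective _), ?_, ?_⟩
  · have hb : (0 : Fin (n + 3)) ≠ Equiv.swap 0 a b := by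
      intro h
      have h2 : Equiv.swap 0 a a = Equiv.swap 0 a b := by rw [Equiv.swap_apply_right]; exact h
      exact hab ((Equiv.swap 0 a).injective h2)
    rw [Function.comp_apply, Equiv.swap_apply_of_ne_of_ne h01 hb, Equiv.swap_apply_left]
  · rw [Function.comp_apply, Equiv.swap_apply_left, Equiv.swap_apply_self]

/-- a weakly saturated graph misses at most one edge, and none if it is rainbow free -/
theorem few_missing {G : SimpleGraph (Fin (n + 3))} {χ : Sym2 (Fin (n + 3)) → ℕ} {m : ℕ}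
    {e : Fin m → Sym2 (Fin (n + 3))} (he : Function.Injective e)
    (hr : Set.range e = Gᶜ.edgeSet)
    (h : ∀ c : Fin m → ℕ, Function.Injective c →
      ∀ κ : Sym2 (Fin (n + 3)) → ℕ, (∀ x ∈ G.edgeSet, κ x = χ x) → (∀ j, κ (e j) = c j) →
        ∀ i : Fin m, ∃ f : Fin (n + 3) → Fin (n + 3),
          IsRainbowCopy (Km n) (G.edgeSet ∪ {x | ∃ j ≤ i, x = e j}) κ f ∧
            ∃ x ∈ (Km n).edgeSet, x.map f = e i) : m ≤ 1 ∧ (RainbowFree (Km n) G χ → m = 0) := by
  classical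
  have hcompl : ∀ x : Sym2 (Fin (n + 3)), x ∈ Gᶜ.edgeSet ↔ ¬ x.IsDiag ∧ x ∉ G.edgeSet := by
    refine Sym2.ind (fun a b => ?_)
    rw [mem_edgeSet, mem_edgeSet, compl_adj, Sym2.mk_isDiag_iff]
  have hnd : ∀ j, ¬ (e j).IsDiag ∧ e j ∉ G.edgeSet := fun j =>
    (hcompl _).mp (hr ▸ Set.mem_range_self j)
  -- a colouring of everything for a given injective list of colours
  have hκ : ∀ c : Fin m → ℕ, ∃ κ : Sym2 (Fin (n + 3)) → ℕ, (∀ x ∈ G.edgeSet, κ x = χ x) ∧
      ∀ j, κ (e j) = c j := by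
    intro c
    refine ⟨fun x => if h : ∃ j, e j = x then c h.choose else χ x, ?_, ?_⟩
    · intro x hx
      have : ¬ ∃ j, e j = x := by
        rintro ⟨j, rfl⟩
        exact (hnd j).2 hx
      simp only [dif_neg this]
    · intro j
      have hex : ∃ j', e j' = e j := ⟨j, rfl⟩
      simp only [dif_pos hex]
      rw [he hex.choose_spec]
  rcases Nat.eq_zero_or_pos m with hm0 | hmpos
  · exact ⟨by omega, fun _ => hm0⟩
  let i0 : Fin m := ⟨0, hmpos⟩
  -- the step of the first added edge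
  have step : ∀ (c : Fin m → ℕ), Function.Injective c → ∃ (κ : Sym2 (Fin (n + 3)) → ℕ)
      (f : Fin (n + 3) → Fin (n + 3)), (∀ x ∈ G.edgeSet, κ x = χ x) ∧ (∀ j, κ (e j) = c j) ∧
      IsRainbowCopy (Km n) (G.edgeSet ∪ {x | ∃ j ≤ i0, x = e j}) κ f ∧
      e i0 ≠ s(f 0, f 1) ∧ ∀ j, j ≠ i0 → e j = s(f 0, f 1) := by
    intro c hc
    obtain ⟨κ, h1, h2⟩ := hκ c
    obtain ⟨f, hf, x, hx, hxe⟩ := h c hc κ h1 h2 i0
    refine ⟨κ, f, h1, h2, hf, ?_, ?_⟩
    · rw [← hxe]
      intro h3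
      have h4 : x = s(0, 1) := Sym2.map.injective hf.1 h3
      exact (mem_Km.mp hx).2 h4
    · intro j hj
      by_contra hne
      obtain ⟨y, hy, hye⟩ := copy_edges hf.1 (hnd j).1 hne
      rcases hf.2.1 y hy with h5 | ⟨j', hj', h5⟩
      · rw [hye] at h5
        exact (hnd j).2 h5
      · rw [hye] at h5
        have h6 : j = j' := he h5
        apply hj
        rw [h6]
        exact le_antisymm hj' (Nat.zero_le _)
  -- injective list of colours with a given first colour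
  have inj : ∀ a : ℕ, Function.Injective (fun j : Fin m => if j = i0 then a else a + 1 + j.val) := by
    intro a j j' hjj
    simp only at hjj
    split_ifs at hjj with h1 h2 h2
    · rw [h1, h2]
    · omega
    · omega
    · exact Fin.ext (by omega)
  have hm1 : m ≤ 1 := by
    by_contra hm
    push Not at hm
    let i1 : Fin m := ⟨1, hm⟩
    have h10 : i1 ≠ i0 := by
      intro h
      have := congrArg Fin.val h
      simp [i1, i0] at this
    obtain ⟨g, hg1, hg2, hg3⟩ := exists_third (e i0) (e i1)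
    obtain ⟨κ', f', -, -, -, -, h6⟩ := step _ (inj 0)
    have hgG : g ∈ G.edgeSet := by
      by_contra hg
      obtain ⟨j, hj⟩ : g ∈ Set.range e := by
        rw [hr, hcompl]
        exact ⟨hg1, hg⟩
      by_cases hj0 : j = i0
      · exact hg2 (by rw [← hj, hj0])
      · exact hg3 (by rw [← hj, h6 j hj0, h6 i1 h10])
    obtain ⟨κ, f, h1, h2, h3, h4, h5⟩ := step _ (inj (χ g))
    have h7 := copy_rainbow h3 hg1 (by rw [← h5 i1 h10]; exact hg3) (hnd i0).1 h4 (by
      rw [h1 g hgG, h2 i0, if_pos rfl])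
    exact hg2 h7
  refine ⟨hm1, fun hfree => ?_⟩
  exfalso
  have hall : ∀ j : Fin m, j = i0 := by
    intro j
    have := j.isLt
    exact Fin.ext (by show j.val = 0; omega)
  have hG : ∀ x : Sym2 (Fin (n + 3)), ¬ x.IsDiag → x ≠ e i0 → x ∈ G.edgeSet := by
    intro x hx hxe
    by_contra hg
    obtain ⟨j, hj⟩ : x ∈ Set.range e := by
      rw [hr, hcompl]
      exact ⟨hx, hg⟩
    exact hxe (by rw [← hj, hall j])
  obtain ⟨a, b, hab, hs⟩ : ∃ a b, a ≠ b ∧ e i0 = s(a, b) := by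
    have h1 := (hnd i0).1
    revert h1
    refine Sym2.ind (fun a b => ?_) (e i0)
    intro h1
    rw [Sym2.mk_isDiag_iff] at h1
    exact ⟨a, b, h1, rfl⟩
  obtain ⟨f, hf, hf0, hf1⟩ := exists_perm hab
  have hmapG : ∀ x ∈ (Km n).edgeSet, x.map f ∈ G.edgeSet := by
    intro x hx
    obtain ⟨hx1, hx2⟩ := mem_Km.mp hx
    refine hG _ (fun h => hx1 ((isDiag_map hf x).mp h)) ?_
    rw [hs, ← hf0, ← hf1]
    intro h
    exact hx2 (Sym2.map.injective hf h)
  obtain ⟨x, hx, y, hy, hxy, hne⟩ : ∃ x ∈ (Km n).edgeSet, ∃ y ∈ (Km n).edgeSet,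
      χ (x.map f) = χ (y.map f) ∧ x ≠ y := by
    by_contra hcon
    push Not at hcon
    exact hfree f ⟨hf, hmapG, fun x hx y hy h => hcon x hx y hy h⟩
  obtain ⟨κ, f', h1, h2, h3, h4, -⟩ := step _ (inj (χ (x.map f)))
  have hx' := (isDiag_map hf x).not.mpr (mem_Km.mp hx).1
  have hy' := (isDiag_map hf y).not.mpr (mem_Km.mp hy).1
  have hxG := hmapG x hx
  have hyG := hmapG y hy
  have hκe : κ (e i0) = χ (x.map f) := by rw [h2 i0, if_pos rfl]
  by_cases hc : x.map f = s(f' 0, f' 1)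
  · have hc2 : y.map f ≠ s(f' 0, f' 1) := by
      intro h
      exact hne (Sym2.map.injective hf (hc.trans h.symm))
    have h5 := copy_rainbow h3 hy' hc2 (hnd i0).1 h4 (by rw [h1 _ hyG, hκe, hxy])
    rw [h5] at hyG
    exact (hnd i0).2 hyG
  · have h5 := copy_rainbow h3 hx' hc (hnd i0).1 h4 (by rw [h1 _ hxG, hκe])
    rw [h5] at hxG
    exact (hnd i0).2 hxG

theorem compl_mem {G : SimpleGraph (Fin (n + 3))} (x : Sym2 (Fin (n + 3))) :
    x ∈ Gᶜ.edgeSet ↔ ¬ x.IsDiag ∧ x ∉ G.edgeSet := by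
  revert x
  refine Sym2.ind (fun a b => ?_)
  rw [mem_edgeSet, mem_edgeSet, compl_adj, Sym2.mk_isDiag_iff]

theorem top_encard : ((⊤ : SimpleGraph (Fin (n + 3))).edgeSet).encard =
    ((n + 3).choose 2 : ℕ) := by
  rw [← coe_edgeFinset, Set.encard_coe_eq_coe_finsetCard, card_edgeFinset_top_eq_card_choose_two,
    Fintype.card_fin]

/-- all edges are in `G` or among the missing ones -/
theorem top_le {G : SimpleGraph (Fin (n + 3))} {m : ℕ} {e : Fin m → Sym2 (Fin (n + 3))}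
    (hr : Set.range e = Gᶜ.edgeSet) :
    ((n + 3).choose 2 : ℕ) ≤ G.edgeSet.encard + m := by
  rw [← top_encard]
  have h1 : (⊤ : SimpleGraph (Fin (n + 3))).edgeSet ⊆ G.edgeSet ∪ Set.range e := by
    intro x hx
    by_cases hg : x ∈ G.edgeSet
    · exact Or.inl hg
    · right
      rw [hr, compl_mem]
      refine ⟨?_, hg⟩
      rw [edgeSet_top] at hx
      exact hx
  calc ((⊤ : SimpleGraph (Fin (n + 3))).edgeSet).encard ≤ (G.edgeSet ∪ Set.range e).encard :=
        Set.encard_le_encard h1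
    _ ≤ G.edgeSet.encard + (Set.range e).encard := Set.encard_union_le _ _
    _ ≤ G.edgeSet.encard + m := by
        gcongr
        rw [← Set.image_univ]
        refine (Set.encard_image_le _ _).trans ?_
        rw [Set.encard_univ, ENat.card_eq_coe_fintype_card, Fintype.card_fin]

theorem zero_one_nd : ¬ (s(0, 1) : Sym2 (Fin (n + 3))).IsDiag := by
  rw [Sym2.mk_isDiag_iff]
  intro h
  have := congrArg Fin.val h
  simp at this

/-- the rainbow `K_n` minus an edge is weakly saturated -/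
theorem sat_minus {χ : Sym2 (Fin (n + 3)) → ℕ} (hχ : Function.Injective χ) :
    WeaklySaturated (Km n) (Km n) χ := by
  classical
  refine ⟨1, fun _ => s(0, 1), fun i j _ => Subsingleton.elim i j, ?_, ?_⟩
  · ext x
    rw [compl_mem, mem_Km]
    constructor
    · rintro ⟨_, rfl⟩
      exact ⟨zero_one_nd, fun h => h.2 rfl⟩
    · rintro ⟨h1, h2⟩
      refine ⟨0, ?_⟩
      by_contra h3
      exact h2 ⟨h1, fun h => h3 h.symm⟩
  · intro c _ κ h1 h2 i
    obtain ⟨g, hg, hguniq⟩ : ∃ g ∈ (Km n).edgeSet, ∀ g' ∈ (Km n).edgeSet, κ g' = c i → g' = g := by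
      by_cases hex : ∃ g ∈ (Km n).edgeSet, κ g = c i
      · obtain ⟨g, hg, hgc⟩ := hex
        refine ⟨g, hg, ?_⟩
        intro g' hg' hgc'
        apply hχ
        rw [← h1 g' hg', ← h1 g hg, hgc, hgc']
      · obtain ⟨g, hg1, hg2, -⟩ := exists_third (s(0, 1) : Sym2 (Fin (n + 3))) s(0, 1)
        refine ⟨g, mem_Km.mpr ⟨hg1, hg2⟩, ?_⟩
        intro g' hg' hgc'
        exact absurd ⟨g', hg', hgc'⟩ hex
    obtain ⟨hgd, hgne⟩ := mem_Km.mp hg
    obtain ⟨a, b, hab, hs⟩ : ∃ a b, a ≠ b ∧ g = s(a, b) := by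
      revert hgd
      refine Sym2.ind (fun a b => ?_) g
      intro hgd
      rw [Sym2.mk_isDiag_iff] at hgd
      exact ⟨a, b, hgd, rfl⟩
    obtain ⟨f, hf, hf0, hf1⟩ := exists_perm hab
    have hgf : g = (s(0, 1) : Sym2 (Fin (n + 3))).map f := by
      rw [hs, Sym2.map_mk, hf0, hf1]
    have hne : ∀ x ∈ (Km n).edgeSet, x.map f ≠ g := by
      intro x hx h
      rw [hgf] at h
      exact (mem_Km.mp hx).2 (Sym2.map.injective hf h)
    have hcases : ∀ x ∈ (Km n).edgeSet, x.map f ∈ (Km n).edgeSet ∨ x.map f = s(0, 1) := by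
      intro x hx
      by_cases h : x.map f = s(0, 1)
      · exact Or.inr h
      · exact Or.inl (mem_Km.mpr ⟨(isDiag_map hf x).not.mpr (mem_Km.mp hx).1, h⟩)
    have hi : κ s(0, 1) = c i := h2 i
    refine ⟨f, ⟨hf, ?_, ?_⟩, ?_⟩
    · intro x hx
      rcases hcases x hx with h | h
      · exact Or.inl h
      · exact Or.inr ⟨i, le_rfl, h⟩
    · intro x hx y hy hxy
      apply Sym2.map.injective hf
      rcases hcases x hx with h3 | h3 <;> rcases hcases y hy with h4 | h4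
      · apply hχ
        rw [← h1 _ h3, ← h1 _ h4, hxy]
      · rw [h4, hi] at hxy
        exact absurd (hguniq _ h3 hxy) (hne x hx)
      · rw [h3, hi] at hxy
        exact absurd (hguniq _ h4 hxy.symm) (hne y hy)
      · rw [h3, h4]
    · have h01 : s(0, 1) ≠ s(f 0, f 1) := by
        intro h
        apply hgne
        rw [hgf, Sym2.map_mk]
        exact h.symm
      exact copy_edges hf zero_one_nd h01

theorem sat_top (χ : Sym2 (Fin (n + 3)) → ℕ) :
    WeaklySaturated (Km n) (⊤ : SimpleGraph (Fin (n + 3))) χ := by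
  refine ⟨0, Fin.elim0, fun i => i.elim0, ?_, fun c _ κ _ _ i => i.elim0⟩
  rw [compl_top, edgeSet_bot]
  exact Set.range_eq_empty _

theorem free_top : RainbowFree (Km n) (⊤ : SimpleGraph (Fin (n + 3))) (fun _ => 0) := by
  rintro f ⟨-, -, h⟩
  obtain ⟨x, hx1, hx2, -⟩ := exists_third (s(0, 1) : Sym2 (Fin (n + 3))) s(0, 1)
  obtain ⟨y, hy1, hy2, hy3⟩ := exists_third (s(0, 1) : Sym2 (Fin (n + 3))) x
  exact hy3 (h y (mem_Km.mpr ⟨hy1, hy2⟩) x (mem_Km.mpr ⟨hx1, hx2⟩) rfl)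

theorem km_encard : (Km n).edgeSet.encard + 1 = ((n + 3).choose 2 : ℕ) := by
  rw [← top_encard]
  have h1 : (Km n).edgeSet = (⊤ : SimpleGraph (Fin (n + 3))).edgeSet \ {s(0, 1)} := by
    unfold Km
    rw [edgeSet_deleteEdges]
  rw [h1]
  refine Set.encard_sdiff_singleton_add_one ?_
  rw [edgeSet_top]
  exact zero_one_nd

/-- For `H = K_{n+3}` minus an edge (which has at least one edge), `rwsat(n+3,H)` is
`C(n+3,2) - 1` while the minimum over rainbow `H`-free start graphs is `C(n+3,2)`. -/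
theorem result : ∀ n : ℕ, (Km n).edgeSet.Nonempty ∧
    rwsat (n + 3) (Km n) + 1 = ((n + 3).choose 2 : ℕ) ∧
    rwsatStar (n + 3) (Km n) = ((n + 3).choose 2 : ℕ) ∧
    rwsat (n + 3) (Km n) < rwsatStar (n + 3) (Km n) := by
  intro n
  have hne : (Km n).edgeSet.Nonempty := by
    obtain ⟨x, hx1, hx2, -⟩ := exists_third (s(0, 1) : Sym2 (Fin (n + 3))) s(0, 1)
    exact ⟨x, mem_Km.mpr ⟨hx1, hx2⟩⟩
  obtain ⟨k, ⟨φ⟩⟩ := Finite.exists_equiv_fin (Sym2 (Fin (n + 3)))
  have hφ : Function.Injective (fun x => (φ x).val : Sym2 (Fin (n + 3)) → ℕ) := fun x y h =>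
    φ.injective (Fin.ext h)
  have h1 : rwsat (n + 3) (Km n) = (Km n).edgeSet.encard := by
    refine le_antisymm (sInf_le ⟨Km n, _, sat_minus hφ, rfl⟩) ?_
    refine le_sInf ?_
    rintro _ ⟨G, χ, ⟨m, e, he, hr, h⟩, rfl⟩
    have h2 := (few_missing he hr h).1
    have h3 := top_le hr
    rw [← km_encard] at h3
    have h4 : (m : ℕ∞) ≤ 1 := by exact_mod_cast h2
    have h5 : (Km n).edgeSet.encard + 1 ≤ G.edgeSet.encard + 1 := h3.trans (by gcongr)
    exact (ENat.add_le_add_iff_right (by simp)).mp h5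
  have h2 : rwsatStar (n + 3) (Km n) = ((n + 3).choose 2 : ℕ) := by
    refine le_antisymm (sInf_le ⟨⊤, _, sat_top _, free_top, top_encard⟩) ?_
    refine le_sInf ?_
    rintro _ ⟨G, χ, ⟨m, e, he, hr, h⟩, hfree, rfl⟩
    have h2 := (few_missing he hr h).2 hfree
    have h3 := top_le hr
    subst h2
    simpa using h3
  have h3 : rwsat (n + 3) (Km n) + 1 = ((n + 3).choose 2 : ℕ) := by rw [h1]; exact km_encard
  refine ⟨hne, h3, h2, ?_⟩
  rw [h2, ← h3, h1]
  have hfin : (Km n).edgeSet.encard ≠ ⊤ := Set.encard_ne_top_iff.mpr (Set.toFinite _)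
  exact ENat.lt_add_one_iff hfin |>.mpr le_rfl

end Pool.Agent.Results.MP_e47ea7_co.CliqueMinusEdge
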